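import Pool.Agent.H990R2.SF.PWAbs

/-! Task PW_A1: the difference formula for merged weights. -/

namespace H990SF

open Finset

namespace PWA1

variable {V : Type*} [Fintype V] [DecidableEq V]

theorem mrg_apply (x : V → ℝ) {c d : V} (u : V) :
    mrg x c d u = if u = d then 0 else if u = c then x c + x d else x u := by
  unfold mrg
  by_cases h : u = d
  · subst h
    simp
  · rw [Function.update_of_ne h, if_neg h]
    by_cases h' : u = c
    · subst h'
      simp
    · rw [Function.update_of_ne h', if_neg h']

theorem pth_apply (x : V → ℝ) {c d : V} (g t : ℝ) (u : V) :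
    pth x c d g t u = if u = d then g - t else if u = c then t else x u := by
  unfold pth
  by_cases h : u = d
  · subst h
    simp
  · rw [Function.update_of_ne h, if_neg h]
    by_cases h' : u = c
    · subst h'
      simp
    · rw [Function.update_of_ne h', if_neg h']

/-- support -/
noncomputable def sp (x : V → ℝ) : Finset V := univ.filter (fun v => x v ≠ 0)

theorem mem_sp (x : V → ℝ) (v : V) : v ∈ sp x ↔ x v ≠ 0 := by
  unfold sp
  simp

theorem mrg_nonneg {x : V → ℝ} (hx : ∀ v, 0 ≤ x v) (c d v : V) : 0 ≤ mrg x c d v := by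
  rw [mrg_apply]
  split_ifs
  · exact le_refl _
  · exact add_nonneg (hx c) (hx d)
  · exact hx v

theorem pth_nonneg {x : V → ℝ} (hx : ∀ v, 0 ≤ x v) (c d v : V) {g t : ℝ} (h0 : 0 ≤ t)
    (h1 : t ≤ g) : 0 ≤ pth x c d g t v := by
  rw [pth_apply]
  split_ifs
  · linarith
  · exact h0
  · exact hx v

theorem sum_mem (S : Finset V) (f : V → ℝ) : ∑ u ∈ S, f u = ∑ u, if u ∈ S then f u else 0 := by
  rw [Finset.sum_ite_mem, Finset.univ_inter]

/-- the statement for one vector -/
def Stm (M : (V → ℝ) → ℝ) (x : V → ℝ) : Prop := ∀ c d : V, c ≠ d →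
    (x c + x d) * (M x - M (mrg x c d)) =
      x c * x d * ((x c + x d) * M (mrg x c d) +
        ∑ v ∈ univ \ {c, d}, x v * (M (mrg x c d) - M (mrg (mrg x c d) c v)))

/-- the common factor -/
def KK (M : (V → ℝ) → ℝ) (Y : V → ℝ) (c d : V) (m : ℝ) : ℝ :=
  m * M Y + ∑ u ∈ univ \ {c, d}, Y u * (M Y - M (mrg Y c u))

theorem step (M : (V → ℝ) → ℝ) (hM : PWGood M) (x : V → ℝ) (hx : ∀ v, 0 ≤ x v)
    (IH : ∀ y : V → ℝ, (∀ v, 0 ≤ y v) → (sp y).card < (sp x).card → Stm M y) : Stm M x := by
  intro c d hcd
  by_cases hd0 : x d = 0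
  · have h1 : mrg x c d = x := by
      funext u
      rw [mrg_apply]
      split_ifs with h h'
      · rw [h, hd0]
      · rw [h', hd0, add_zero]
      · rfl
    rw [h1, hd0]
    ring
  by_cases hc0 : x c = 0
  · have h1 : mrg x c d = x ∘ (Equiv.swap c d) := by
      funext u
      rw [mrg_apply, Function.comp_apply]
      split_ifs with h h'
      · rw [h, Equiv.swap_apply_right, hc0]
      · rw [h', Equiv.swap_apply_left, hc0, zero_add]
      · rw [Equiv.swap_apply_of_ne_of_ne h' h]
    rw [hc0]
    rw [h1, hM.symm]
    ring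
  have hcpos : 0 < x c := lt_of_le_of_ne (hx c) (Ne.symm hc0)
  have hdpos : 0 < x d := lt_of_le_of_ne (hx d) (Ne.symm hd0)
  set g : ℝ := x c + x d with hg
  have hgpos : 0 < g := by positivity
  set z : V → ℝ := mrg x c d with hz
  have hzd : z d = 0 := by rw [hz, mrg_apply, if_pos rfl]
  have hzc : z c = g := by rw [hz, mrg_apply, if_neg hcd, if_pos rfl]
  -- merging along the path
  have hpz : ∀ t, mrg (pth x c d g t) c d = z := by
    intro t
    funext u
    rw [hz, mrg_apply, mrg_apply, pth_apply, pth_apply, pth_apply, if_pos rfl, if_neg hcd,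
      if_pos rfl]
    split_ifs
    · rfl
    · rw [hg]; ring
    · rfl
  -- the formulas along the path
  have hpath : ∀ v, v ≠ c → v ≠ d → x v ≠ 0 → ∀ t, 0 ≤ t → t ≤ g →
      (g + x v) * (M (mrg (pth x c d g t) c v) - M (mrg (pth x c d g t) d v)) =
        KK M (mrg z c v) c d (g + x v) * x v * (g - 2 * t) := by
    intro v hvc hvd hv t h0 h1
    set Y : V → ℝ := mrg z c v with hY
    set y : V → ℝ := mrg (pth x c d g t) c v with hy
    set y' : V → ℝ := mrg (pth x c d g t) d v with hy'
    have hp0 : ∀ u, 0 ≤ pth x c d g t u := fun u => pth_nonneg hx c d u h0 h1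
    have hsy : (sp y).card < (sp x).card := by
      apply Finset.card_lt_card
      rw [Finset.ssubset_iff_of_subset]
      · refine ⟨v, (mem_sp _ _).2 hv, ?_⟩
        rw [mem_sp, hy, mrg_apply, if_pos rfl]
        simp
      · intro u hu
        rw [mem_sp] at hu ⊢
        rw [hy, mrg_apply] at hu
        by_cases e1 : u = v
        · rw [e1]; exact hv
        · by_cases e2 : u = c
          · rw [e2]; exact hc0
          · rw [if_neg e1, if_neg e2, pth_apply] at hu
            by_cases e3 : u = d
            · rw [e3]; exact hd0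
            · rw [if_neg e3, if_neg e2] at hu
              exact hu
    have hsy' : (sp y').card < (sp x).card := by
      apply Finset.card_lt_card
      rw [Finset.ssubset_iff_of_subset]
      · refine ⟨v, (mem_sp _ _).2 hv, ?_⟩
        rw [mem_sp, hy', mrg_apply, if_pos rfl]
        simp
      · intro u hu
        rw [mem_sp] at hu ⊢
        rw [hy', mrg_apply] at hu
        by_cases e1 : u = v
        · rw [e1]; exact hv
        · by_cases e3 : u = d
          · rw [e3]; exact hd0
          · rw [if_neg e1, if_neg e3, pth_apply] at hu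
            by_cases e2 : u = c
            · rw [e2]; exact hc0
            · rw [if_neg e3, if_neg e2] at hu
              exact hu
    have iy := IH y (fun u => mrg_nonneg hp0 c v u) hsy c d hcd
    have iy' := IH y' (fun u => mrg_nonneg hp0 d v u) hsy' c d hcd
    have yc : y c = t + x v := by
      rw [hy, mrg_apply, if_neg (Ne.symm hvc), if_pos rfl, pth_apply, if_neg hcd, if_pos rfl,
        pth_apply, if_neg hvd, if_neg hvc]
    have yd : y d = g - t := by
      rw [hy, mrg_apply, if_neg (Ne.symm hvd), if_neg (Ne.symm hcd), pth_apply, if_pos rfl]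
    have yc' : y' c = t := by
      rw [hy', mrg_apply, if_neg (Ne.symm hvc), if_neg hcd, pth_apply, if_neg hcd, if_pos rfl]
    have yd' : y' d = g - t + x v := by
      rw [hy', mrg_apply, if_neg (Ne.symm hvd), if_pos rfl, pth_apply, if_pos rfl, pth_apply,
        if_neg hvd, if_neg hvc]
    have yY : mrg y c d = Y := by
      funext u
      rw [mrg_apply, yc, yd, hY, mrg_apply, hzc]
      have zv : z v = x v := by rw [hz, mrg_apply, if_neg hvd, if_neg hvc]
      rw [zv]
      by_cases e1 : u = v
      · subst e1
        rw [if_pos rfl, if_neg hvd, if_neg hvc, hy, mrg_apply, if_pos rfl]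
      · rw [if_neg e1]
        by_cases e3 : u = d
        · subst e3
          rw [if_pos rfl, if_neg (Ne.symm hcd), hzd]
        · rw [if_neg e3]
          by_cases e2 : u = c
          · rw [if_pos e2, if_pos e2]
            ring
          · rw [if_neg e2, if_neg e2, hy, mrg_apply, if_neg e1, if_neg e2, pth_apply,
              if_neg e3, if_neg e2, hz, mrg_apply, if_neg e3, if_neg e2]
    have yY' : mrg y' c d = Y := by
      funext u
      rw [mrg_apply, yc', yd', hY, mrg_apply, hzc]
      have zv : z v = x v := by rw [hz, mrg_apply, if_neg hvd, if_neg hvc]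
      rw [zv]
      by_cases e1 : u = v
      · subst e1
        rw [if_pos rfl, if_neg hvd, if_neg hvc, hy', mrg_apply, if_pos rfl]
      · rw [if_neg e1]
        by_cases e3 : u = d
        · subst e3
          rw [if_pos rfl, if_neg (Ne.symm hcd), hzd]
        · rw [if_neg e3]
          by_cases e2 : u = c
          · rw [if_pos e2, if_pos e2]
            ring
          · rw [if_neg e2, if_neg e2, hy', mrg_apply, if_neg e1, if_neg e3, pth_apply,
              if_neg e3, if_neg e2, hz, mrg_apply, if_neg e3, if_neg e2]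
    have su : ∀ w : V → ℝ, mrg w c d = Y → ∀ u ∈ (univ \ {c, d} : Finset V), w u = Y u := by
      intro w hw u hu
      rw [Finset.mem_sdiff, Finset.mem_insert, Finset.mem_singleton, not_or] at hu
      rw [← hw, mrg_apply, if_neg hu.2.2, if_neg hu.2.1]
    have s1 : ∑ u ∈ univ \ {c, d}, y u * (M Y - M (mrg Y c u)) =
        ∑ u ∈ univ \ {c, d}, Y u * (M Y - M (mrg Y c u)) :=
      Finset.sum_congr rfl fun u hu => by rw [su y yY u hu]
    have s2 : ∑ u ∈ univ \ {c, d}, y' u * (M Y - M (mrg Y c u)) =
        ∑ u ∈ univ \ {c, d}, Y u * (M Y - M (mrg Y c u)) :=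
      Finset.sum_congr rfl fun u hu => by rw [su y' yY' u hu]
    rw [yY, yc, yd, s1] at iy
    rw [yY', yc', yd', s2] at iy'
    unfold KK
    have e1 : t + x v + (g - t) = g + x v := by ring
    have e2 : t + (g - t + x v) = g + x v := by ring
    rw [e1] at iy
    rw [e2] at iy'
    have e3 : (g + x v) * (M y - M y') = (g + x v) * (M y - M Y) - (g + x v) * (M y' - M Y) := by
      ring
    rw [e3, iy, iy']
    ring
  -- the formula for the merged vector
  have hmerge : ∀ v, v ≠ c → v ≠ d →
      (g + x v) * (M z - M (mrg z c v)) = g * x v * KK M (mrg z c v) c d (g + x v) := by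
    intro v hvc hvd
    have hz0 : ∀ u, 0 ≤ z u := fun u => mrg_nonneg hx c d u
    have hsz : (sp z).card < (sp x).card := by
      apply Finset.card_lt_card
      rw [Finset.ssubset_iff_of_subset]
      · refine ⟨d, (mem_sp _ _).2 hd0, ?_⟩
        rw [mem_sp, hzd]
        simp
      · intro u hu
        rw [mem_sp] at hu ⊢
        rw [hz, mrg_apply] at hu
        by_cases e3 : u = d
        · rw [e3]; exact hd0
        · by_cases e2 : u = c
          · rw [e2]; exact hc0
          · rw [if_neg e3, if_neg e2] at hu
            exact hu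
    have iz := IH z hz0 hsz c v (Ne.symm hvc)
    have zv : z v = x v := by rw [hz, mrg_apply, if_neg hvd, if_neg hvc]
    rw [hzc, zv] at iz
    have hs : ∑ u ∈ univ \ {c, v}, z u * (M (mrg z c v) - M (mrg (mrg z c v) c u)) =
        ∑ u ∈ univ \ {c, d}, mrg z c v u * (M (mrg z c v) - M (mrg (mrg z c v) c u)) := by
      rw [sum_mem (univ \ {c, v}), sum_mem (univ \ {c, d})]
      refine Finset.sum_congr rfl fun u _ => ?_
      simp only [Finset.mem_sdiff, Finset.mem_univ, true_and, Finset.mem_insert,
        Finset.mem_singleton, not_or]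
      by_cases e2 : u = c
      · simp [e2]
      · by_cases e3 : u = d
        · subst e3
          rw [hzd]
          simp
        · by_cases e1 : u = v
          · subst e1
            have : mrg z c u u = 0 := by rw [mrg_apply, if_pos rfl]
            rw [this]
            simp
          · rw [if_pos ⟨e2, e1⟩, if_pos ⟨e2, e3⟩, mrg_apply z u, if_neg e1, if_neg e2]
    rw [hs] at iz
    unfold KK
    exact iz
  -- the constant
  set C : ℝ := M z + ∑ v ∈ univ \ {c, d}, x v ^ 2 * KK M (mrg z c v) c d (g + x v) / (g + x v)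
    with hC
  have hder : ∀ t, 0 ≤ t → t ≤ g →
      HasDerivAt (fun s => M (pth x c d g s)) ((g - 2 * t) * C) t := by
    intro t h0 h1
    have h2 := hM.deriv x c d hcd g t
    rw [hpz t] at h2
    convert h2 using 1
    rw [hC, mul_add, Finset.mul_sum, add_comm]
    congr 1
    refine Finset.sum_congr rfl fun v hv => ?_
    rw [Finset.mem_sdiff, Finset.mem_insert, Finset.mem_singleton, not_or] at hv
    by_cases hv0 : x v = 0
    · rw [hv0]
      simp
    · have hvpos : 0 < g + x v := add_pos_of_pos_of_nonneg hgpos (hx v)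
      have h3 := hpath v hv.2.1 hv.2.2 hv0 t h0 h1
      have h4 : M (mrg (pth x c d g t) c v) - M (mrg (pth x c d g t) d v) =
          KK M (mrg z c v) c d (g + x v) * x v * (g - 2 * t) / (g + x v) := by
        rw [eq_div_iff hvpos.ne', mul_comm]
        exact h3
      rw [h4]
      ring
  have hconst : ∀ t ∈ Set.Icc (0:ℝ) g,
      M (pth x c d g t) - t * (g - t) * C = M (pth x c d g 0) - 0 * (g - 0) * C := by
    have hd' : ∀ t, 0 ≤ t → t ≤ g →
        HasDerivAt (fun s => M (pth x c d g s) - s * (g - s) * C) 0 t := by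
      intro t h0 h1
      have h2 : HasDerivAt (fun s : ℝ => s * (g - s) * C) ((g - 2 * t) * C) t := by
        have h3 : HasDerivAt (fun s : ℝ => s * (g - s)) (1 * (g - t) + t * (0 - 1)) t :=
          (hasDerivAt_id' t).mul ((hasDerivAt_const t g).sub (hasDerivAt_id' t))
        have h4 := h3.mul_const C
        refine h4.congr_deriv ?_
        ring
      have h5 := (hder t h0 h1).sub h2
      rw [sub_self] at h5
      exact h5
    exact constant_of_has_deriv_right_zero
      (fun t ht => (hd' t ht.1 ht.2).continuousAt.continuousWithinAt)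
      (fun t ht => (hd' t ht.1 ht.2.le).hasDerivWithinAt)
  have k1 := hconst (x c) ⟨hcpos.le, by rw [hg]; linarith⟩
  have k2 := hconst g ⟨hgpos.le, le_refl _⟩
  have p1 : pth x c d g (x c) = x := by
    funext u
    rw [pth_apply]
    split_ifs with h h'
    · rw [h, hg]; ring
    · rw [h']
    · rfl
  have p2 : pth x c d g g = z := by
    funext u
    rw [pth_apply, hz, mrg_apply]
    split_ifs with h h'
    · ring
    · rfl
    · rfl
  rw [p1] at k1
  rw [p2] at k2
  have k3 : M x - M z = x c * x d * C := by
    have e : g - x c = x d := by rw [hg]; ring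
    rw [e] at k1
    have e2 : g * (g - g) * C = 0 := by ring
    rw [e2] at k2
    linarith
  rw [k3]
  have hgC : g * C = g * M z + ∑ v ∈ univ \ {c, d}, x v * (M z - M (mrg z c v)) := by
    rw [hC, mul_add, Finset.mul_sum]
    congr 1
    refine Finset.sum_congr rfl fun v hv => ?_
    rw [Finset.mem_sdiff, Finset.mem_insert, Finset.mem_singleton, not_or] at hv
    have hvpos : 0 < g + x v := add_pos_of_pos_of_nonneg hgpos (hx v)
    have h3 := hmerge v hv.2.1 hv.2.2
    have h4 : M z - M (mrg z c v) = g * x v * KK M (mrg z c v) c d (g + x v) / (g + x v) := by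
      rw [eq_div_iff hvpos.ne', mul_comm]
      exact h3
    rw [h4]
    ring
  rw [← hgC]
  ring

end PWA1

theorem pw_A1 {V : Type*} [Fintype V] [DecidableEq V] : PW_A1 V := by
  intro M hM x hx
  have main : ∀ n : ℕ, ∀ x : V → ℝ, (∀ v, 0 ≤ x v) → (PWA1.sp x).card = n → PWA1.Stm M x := by
    intro n
    induction n using Nat.strong_induction_on with
    | _ n ih =>
      intro x hx hn
      refine PWA1.step M hM x hx fun y hy hlt => ?_
      exact ih (PWA1.sp y).card (by rw [← hn]; exact hlt) y hy rfl
  exact main _ x hx rfl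

end H990SF
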